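import Mathlib

/-!
# Multiplication in `C(X)` for one-dimensional compact spaces: tools

* `CovDimLE X n`: the Lebesgue covering dimension of `X` is at most `n`.
* `exists_unit_near`: if `X` is compact Hausdorff with covering dimension at most one then
  the nowhere vanishing functions are dense in `C(X, ℂ)`.
* `exists_circle_extension`: circle valued continuous functions on closed subsets extend to `X`.
-/

set_option autoImplicit false

open Set Topology

namespace Pool.Agent.Zk73.OM

universe u v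

/-- `CovDimLE X n`: the Lebesgue covering dimension of the topological space `X` is at most `n`.
Every finite open cover of `X` has an open refinement which covers `X` and is such that every
point lies in at most `n + 1` of its members. -/
def CovDimLE (X : Type*) [TopologicalSpace X] (n : ℕ) : Prop :=
  ∀ 𝒰 : Set (Set X), 𝒰.Finite → (∀ U ∈ 𝒰, IsOpen U) → ⋃₀ 𝒰 = univ →
    ∃ 𝒱 : Set (Set X), (∀ V ∈ 𝒱, IsOpen V) ∧ ⋃₀ 𝒱 = univ ∧ (∀ V ∈ 𝒱, ∃ U ∈ 𝒰, V ⊆ U) ∧
      ∀ x : X, {V ∈ 𝒱 | x ∈ V}.encard ≤ n + 1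

/-- A quadratic polynomial with nonzero leading coefficient has finitely many roots. -/
lemma finite_quadratic_roots {a : ℝ} (b c : ℝ) (ha : a ≠ 0) :
    {t : ℝ | a * t ^ 2 + b * t + c = 0}.Finite := by
  classical
  by_cases h : ∃ s : ℝ, discrim a b c = s * s
  · obtain ⟨s, hs⟩ := h
    refine (Set.toFinite {(-b + s) / (2 * a), (-b - s) / (2 * a)}).subset ?_
    intro t ht
    have ht' : a * (t * t) + b * t + c = 0 := by
      have : a * t ^ 2 + b * t + c = 0 := ht
      nlinarith [this]
    have := (quadratic_eq_zero_iff ha hs t).1 ht'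
    simpa [Set.mem_insert_iff] using this
  · refine (Set.finite_empty).subset ?_
    intro t ht
    exfalso
    have ht' : a * (t * t) + b * t + c = 0 := by
      have : a * t ^ 2 + b * t + c = 0 := ht
      nlinarith [this]
    apply h
    refine ⟨2 * a * t + b, ?_⟩
    have := discrim_eq_sq_of_quadratic_eq_zero ht'
    rw [this]; ring

/-- General position: finitely many complex numbers can be perturbed so that no two of them
are on a common real line through the origin. -/
lemma exists_general_position {ι : Type*} [Fintype ι] (w : ι → ℂ) {ε : ℝ} (hε : 0 < ε) :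
    ∃ z : ι → ℂ, (∀ i, ‖z i - w i‖ < ε) ∧ (∀ i, z i ≠ 0) ∧
      ∀ i j, i ≠ j → (z i * (starRingEnd ℂ) (z j)).im ≠ 0 := by
  classical
  obtain ⟨e⟩ : Nonempty (ι ≃ Fin (Fintype.card ι)) := ⟨Fintype.equivFin ι⟩
  set k : ι → ℝ := fun i => ((e i : ℕ) : ℝ) with hk
  have hkinj : ∀ i j, i ≠ j → k i - k j ≠ 0 := by
    intro i j hij h
    apply hij
    apply e.injective
    apply Fin.ext
    have h2 : k i = k j := by linarith
    simp only [hk] at h2
    exact_mod_cast h2
  set u : ι → ℂ := fun i => ⟨1, k i⟩ with hu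
  -- bad parameters
  have hbad1 : ∀ i, {t : ℝ | w i + t * u i = 0}.Finite := by
    intro i
    refine (Set.toFinite {-(w i).re}).subset ?_
    intro t ht
    have ht' : w i + t * u i = 0 := ht
    have := congrArg Complex.re ht'
    simp [hu] at this
    simp only [Set.mem_singleton_iff]
    linarith
  have hbad2 : ∀ i j, i ≠ j →
      {t : ℝ | ((w i + t * u i) * (starRingEnd ℂ) (w j + t * u j)).im = 0}.Finite := by
    intro i j hij
    refine (finite_quadratic_roots
      (-(w i).re * k j + (w i).im * 1 + (k i) * (w j).re - 1 * (w j).im)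
      (-(w i).re * (w j).im + (w i).im * (w j).re) (hkinj i j hij)).subset ?_
    intro t ht
    have ht' : ((w i + t * u i) * (starRingEnd ℂ) (w j + t * u j)).im = 0 := ht
    simp [hu] at ht'
    simp only [Set.mem_ofPred_eq]
    linarith
  have hfin : ((⋃ i, {t : ℝ | w i + t * u i = 0}) ∪
      ⋃ i, ⋃ j, ⋃ (_ : i ≠ j),
        {t : ℝ | ((w i + t * u i) * (starRingEnd ℂ) (w j + t * u j)).im = 0}).Finite := by
    refine (Set.finite_iUnion hbad1).union ?_
    refine Set.finite_iUnion fun i => Set.finite_iUnion fun j => ?_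
    exact Set.finite_iUnion fun hij => hbad2 i j hij
  obtain ⟨B, hB⟩ : ∃ B : ℝ, ∀ i, ‖u i‖ < B := by
    obtain ⟨B, hB⟩ := (Set.finite_range fun i => ‖u i‖).bddAbove
    exact ⟨B + 1, fun i => lt_of_le_of_lt (hB ⟨i, rfl⟩) (by linarith)⟩
  have hB' : 0 < |B| + 1 := by positivity
  have hinf : (Ioo (0:ℝ) (ε / (|B| + 1))).Infinite := Ioo_infinite (by positivity)
  obtain ⟨t, ht, htb⟩ := (hinf.sdiff hfin).nonempty
  refine ⟨fun i => w i + t * u i, ?_, ?_, ?_⟩
  · intro i
    simp only [add_sub_cancel_left, norm_mul, Complex.norm_real, Real.norm_eq_abs,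
      abs_of_pos ht.1]
    have h1 : ‖u i‖ < |B| + 1 := lt_of_lt_of_le (hB i) (by linarith [le_abs_self B])
    have h2 : t * ‖u i‖ ≤ t * (|B| + 1) := mul_le_mul_of_nonneg_left h1.le ht.1.le
    have h3 : t * (|B| + 1) < ε := by
      have := ht.2
      rwa [lt_div_iff₀ hB'] at this
    linarith
  · intro i h
    exact htb (Or.inl (Set.mem_iUnion.2 ⟨i, h⟩))
  · intro i j hij h
    exact htb (Or.inr (Set.mem_iUnion.2 ⟨i, Set.mem_iUnion.2 ⟨j, Set.mem_iUnion.2 ⟨hij, h⟩⟩⟩))

/-- If `X` is compact Hausdorff of covering dimension at most one, the nowhere vanishing functions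
are dense in `C(X, ℂ)`. -/
lemma exists_unit_near {X : Type*} [TopologicalSpace X] [CompactSpace X] [T2Space X]
    (hX : CovDimLE X 1) (F : C(X, ℂ)) {ε : ℝ} (hε : 0 < ε) :
    ∃ G : C(X, ℂ), (∀ x, G x ≠ 0) ∧ ∀ x, ‖G x - F x‖ < ε := by
  classical
  -- a finite cover by preimages of small balls
  obtain ⟨s, hs⟩ : ∃ s : Finset X, (⋃ y ∈ s, F ⁻¹' Metric.ball (F y) (ε / 4)) = univ := by
    obtain ⟨s, hs⟩ := isCompact_univ.elim_finite_subcover
      (fun y : X => F ⁻¹' Metric.ball (F y) (ε / 4))
      (fun y => Metric.isOpen_ball.preimage F.continuous)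
      (fun y _ => mem_iUnion.2 ⟨y, Metric.mem_ball_self (by positivity)⟩)
    exact ⟨s, univ_subset_iff.1 hs⟩
  obtain ⟨𝒱, hVo, hVc, hVU, hVord⟩ := hX
    ((fun y : X => F ⁻¹' Metric.ball (F y) (ε / 4)) '' (s : Set X)) (s.finite_toSet.image _)
    (by
      rintro U ⟨y, -, rfl⟩
      exact Metric.isOpen_ball.preimage F.continuous)
    (by
      rw [sUnion_image]
      simpa using hs)
  -- finite subcover
  obtain ⟨t, ht⟩ := isCompact_univ.elim_finite_subcover (fun V : 𝒱 => (V : Set X))
    (fun V => hVo V.1 V.2)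
    (by
      intro x _
      have : x ∈ ⋃₀ 𝒱 := by rw [hVc]; trivial
      obtain ⟨V, hV, hxV⟩ := this
      exact mem_iUnion.2 ⟨⟨V, hV⟩, hxV⟩)
  let V : t → Set X := fun i => (i.1 : Set X)
  have hVinj : Function.Injective V := fun i j h => Subtype.ext (Subtype.ext h)
  have hcov : (univ : Set X) ⊆ ⋃ i, V i := by
    intro x hx
    obtain ⟨i, hi⟩ := mem_iUnion.1 (ht hx)
    obtain ⟨hit, hxi⟩ := mem_iUnion.1 hi
    exact mem_iUnion.2 ⟨⟨i, hit⟩, hxi⟩
  obtain ⟨f, hf⟩ := PartitionOfUnity.exists_isSubordinate isClosed_univ V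
    (fun i => hVo i.1.1 i.1.2) hcov
  have hw : ∀ i : t, ∃ w : ℂ, V i ⊆ F ⁻¹' Metric.ball w (ε / 4) := by
    intro i
    obtain ⟨U, ⟨y, -, rfl⟩, hy⟩ := hVU i.1.1 i.1.2
    exact ⟨F y, hy⟩
  choose w hw using hw
  obtain ⟨z, hz1, hz2, hz3⟩ := exists_general_position w (ε := ε / 4) (by positivity)
  have hfV : ∀ i x, f i x ≠ 0 → x ∈ V i := fun i x h => hf i (subset_tsupport _ h)
  have hsum : ∀ x, ∑ i, f i x = 1 := by
    intro x
    have := f.sum_eq_one (mem_univ x)
    rwa [finsum_eq_sum_of_fintype] at this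
  have hcard : ∀ x, (Finset.univ.filter fun i => f i x ≠ 0).card ≤ 2 := by
    intro x
    have h1 : (V '' ((Finset.univ.filter fun i => f i x ≠ 0 : Finset t) : Set t)) ⊆
        {W ∈ 𝒱 | x ∈ W} := by
      rintro W ⟨i, hi, rfl⟩
      refine ⟨i.1.2, hfV i x ?_⟩
      simpa using hi
    have h2 := (encard_le_encard h1).trans (hVord x)
    rw [hVinj.encard_image, encard_coe_eq_coe_finsetCard] at h2
    have h3 : ((Finset.univ.filter fun i => f i x ≠ 0).card : ℕ∞) ≤ ((2 : ℕ) : ℕ∞) := by
      refine h2.trans ?_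
      norm_num
    exact_mod_cast h3
  refine ⟨⟨fun x => ∑ i, ((f i x : ℝ) : ℂ) * z i, by
    refine continuous_finsetSum _ fun i _ => ?_
    exact (Complex.continuous_ofReal.comp (f i).continuous).mul continuous_const⟩, ?_, ?_⟩
  · intro x h0
    simp only [ContinuousMap.coe_mk] at h0
    -- some index with nonzero weight
    obtain ⟨i₀, hi₀⟩ : ∃ i₀, f i₀ x ≠ 0 := by
      by_contra hcon
      push Not at hcon
      have := hsum x
      simp [hcon] at this
    have hrest : ∀ j, j ≠ i₀ → f j x = 0 := by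
      intro j hj
      by_contra hjx
      have hother : ∀ k, k ≠ i₀ → k ≠ j → f k x = 0 := by
        intro k hk1 hk2
        by_contra hkx
        have hsub : ({i₀, j, k} : Finset t) ⊆ Finset.univ.filter fun i => f i x ≠ 0 := by
          intro l hl
          simp only [Finset.mem_insert, Finset.mem_singleton] at hl
          rcases hl with rfl | rfl | rfl <;> simp [*]
        have h3 := (Finset.card_le_card hsub).trans (hcard x)
        rw [Finset.card_insert_of_notMem (by simp [hj.symm, hk1.symm]),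
          Finset.card_insert_of_notMem (by simp [hk2.symm]), Finset.card_singleton] at h3
        omega
      have h1 : ((∑ i, ((f i x : ℝ) : ℂ) * z i) * (starRingEnd ℂ) (z i₀)).im = 0 := by
        rw [h0]; simp
      rw [Finset.sum_mul, Complex.im_sum] at h1
      rw [Finset.sum_eq_single j] at h1
      · rw [mul_assoc, Complex.im_ofReal_mul] at h1
        rcases mul_eq_zero.1 h1 with h | h
        · exact hjx h
        · exact hz3 j i₀ hj h
      · intro k _ hkj
        by_cases hk : k = i₀
        · subst hk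
          rw [mul_assoc, Complex.im_ofReal_mul, Complex.mul_conj]
          simp
        · rw [hother k hk hkj]; simp
      · intro h; exact absurd (Finset.mem_univ _) h
    rw [Finset.sum_eq_single i₀] at h0
    · rcases mul_eq_zero.1 h0 with h | h
      · exact hi₀ (by exact_mod_cast h)
      · exact hz2 i₀ h
    · intro k _ hk
      rw [hrest k hk]; simp
    · intro h; exact absurd (Finset.mem_univ _) h
  · intro x
    simp only [ContinuousMap.coe_mk]
    have h1 : (∑ i, ((f i x : ℝ) : ℂ) * z i) - F x = ∑ i, ((f i x : ℝ) : ℂ) * (z i - F x) := by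
      simp only [mul_sub, Finset.sum_sub_distrib]
      rw [← Finset.sum_mul]
      have : (∑ i, ((f i x : ℝ) : ℂ)) = 1 := by
        rw [← Complex.ofReal_sum, hsum x]; simp
      rw [this, one_mul]
    rw [h1]
    have h2 : ‖∑ i, ((f i x : ℝ) : ℂ) * (z i - F x)‖ ≤ ∑ i, f i x * (ε / 2) := by
      refine (norm_sum_le _ _).trans (Finset.sum_le_sum fun i _ => ?_)
      rw [norm_mul, Complex.norm_real, Real.norm_eq_abs, abs_of_nonneg (f.nonneg i x)]
      by_cases hfi : f i x = 0
      · rw [hfi]; simp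
      · refine mul_le_mul_of_nonneg_left ?_ (f.nonneg i x)
        have h3 : x ∈ F ⁻¹' Metric.ball (w i) (ε / 4) := hw i (hfV i x hfi)
        have h4 : ‖F x - w i‖ < ε / 4 := by
          simpa [dist_eq_norm] using h3
        have h5 : z i - F x = (z i - w i) - (F x - w i) := by ring
        rw [h5]
        refine (norm_sub_le _ _).trans ?_
        linarith [hz1 i]
    rw [← Finset.sum_mul, hsum x, one_mul] at h2
    linarith

/-- Tietze extension for functions which are continuous on a closed set. -/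
lemma tietze {X : Type u} [TopologicalSpace X] [NormalSpace X] {Y : Type v} [TopologicalSpace Y]
    [TietzeExtension.{u, v} Y] {A : Set X} (hA : IsClosed A) (u : X → Y) (hu : ContinuousOn u A) :
    ∃ F : C(X, Y), ∀ x ∈ A, F x = u x := by
  obtain ⟨F, hF⟩ := ContinuousMap.exists_restrict_eq (Y := Y) hA
    (⟨A.domRestrict u, continuousOn_iff_continuous_domRestrict.1 hu⟩ : C(A, Y))
  refine ⟨F, fun x hx => ?_⟩
  have := congrArg (fun g : C(A, Y) => g ⟨x, hx⟩) hF
  exact this

/-- If `X` is compact Hausdorff of covering dimension at most one, every continuous function from a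
closed subset of `X` to the unit circle extends to a continuous function from `X` to the unit
circle. -/
lemma exists_circle_extension {X : Type*} [TopologicalSpace X] [CompactSpace X] [T2Space X]
    (hX : CovDimLE X 1) {A : Set X} (hA : IsClosed A) (u : X → ℂ) (hu : ContinuousOn u A)
    (hu1 : ∀ x ∈ A, ‖u x‖ = 1) :
    ∃ v : C(X, ℂ), (∀ x, ‖v x‖ = 1) ∧ ∀ x ∈ A, v x = u x := by
  -- Tietze
  obtain ⟨F, hFA⟩ := tietze (Y := ℂ) hA u hu
  obtain ⟨G, hG0, hGF⟩ := exists_unit_near hX F (ε := 1 / 2) (by norm_num)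
  have hre : ∀ x ∈ A, 0 < (u x * (starRingEnd ℂ) (G x)).re := by
    intro x hx
    have h1 : ‖G x - u x‖ < 1 / 2 := by rw [← hFA x hx]; exact hGF x
    have h2 := hu1 x hx
    have h3 : ‖G x - u x‖ ^ 2 = ‖G x‖ ^ 2 + ‖u x‖ ^ 2 - 2 * (u x * (starRingEnd ℂ) (G x)).re := by
      rw [← Complex.normSq_eq_norm_sq, ← Complex.normSq_eq_norm_sq, ← Complex.normSq_eq_norm_sq]
      simp [Complex.normSq_apply]
      ring
    have h4 : ‖G x - u x‖ ^ 2 < 1 := by nlinarith [norm_nonneg (G x - u x)]
    rw [h2] at h3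
    nlinarith [sq_nonneg ‖G x‖]
  have hcont : ContinuousOn (fun x => u x * (starRingEnd ℂ) (G x)) A :=
    hu.mul (Complex.continuous_conj.comp G.continuous).continuousOn
  have harg : ContinuousOn (fun x => Complex.arg (u x * (starRingEnd ℂ) (G x))) A := by
    intro x hx
    have h1 : ContinuousAt Complex.arg (u x * (starRingEnd ℂ) (G x)) :=
      Complex.continuousAt_arg (Or.inl (hre x hx))
    exact ContinuousAt.comp_continuousWithinAt (f := fun x => u x * (starRingEnd ℂ) (G x)) h1
      (hcont x hx)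
  obtain ⟨θ, hθA⟩ := tietze (Y := ℝ) hA _ harg
  have hGn : ∀ x, ((‖G x‖ : ℝ) : ℂ) ≠ 0 := fun x => by
    simpa using hG0 x
  refine ⟨⟨fun x => G x / ‖G x‖ * Complex.exp (θ x * Complex.I), ?_⟩, ?_, ?_⟩
  · refine Continuous.mul (Continuous.div G.continuous ?_ hGn) ?_
    · exact Complex.continuous_ofReal.comp (continuous_norm.comp G.continuous)
    · exact Complex.continuous_exp.comp
        ((Complex.continuous_ofReal.comp θ.continuous).mul continuous_const)
  · intro x
    simp only [ContinuousMap.coe_mk, norm_mul, norm_div, Complex.norm_real, norm_norm,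
      Complex.norm_exp_ofReal_mul_I, mul_one]
    exact div_self (norm_ne_zero_iff.2 (hG0 x))
  · intro x hx
    simp only [ContinuousMap.coe_mk]
    rw [hθA x hx]
    have h1 := Complex.norm_mul_exp_arg_mul_I (u x * (starRingEnd ℂ) (G x))
    have hn : ‖u x * (starRingEnd ℂ) (G x)‖ = ‖G x‖ := by
      rw [norm_mul, hu1 x hx, one_mul, Complex.norm_conj]
    rw [hn] at h1
    have h2 : Complex.exp (Complex.arg (u x * (starRingEnd ℂ) (G x)) * Complex.I) =
        (u x * (starRingEnd ℂ) (G x)) / ‖G x‖ := by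
      rw [eq_div_iff (hGn x), mul_comm, h1]
    rw [h2]
    have h3 : G x * (starRingEnd ℂ) (G x) = (‖G x‖ : ℂ) ^ 2 := by
      rw [Complex.mul_conj, Complex.normSq_eq_norm_sq]; push_cast; ring
    rw [div_mul_div_comm, div_eq_iff (mul_ne_zero (hGn x) (hGn x))]
    rw [show G x * (u x * (starRingEnd ℂ) (G x)) = u x * (G x * (starRingEnd ℂ) (G x)) by ring, h3]
    ring

end Pool.Agent.Zk73.OM
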