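import Pool.Agent.Zk73.OM.Basic

/-!
# Multiplication in `C(X, ℂ)` is uniformly open if `X` has covering dimension at most one
-/

set_option autoImplicit false

open Set Topology Filter

namespace Pool.Agent.Zk73.OM

universe u v

/-- For nonzero `w` the normalised number `w / |w|` is at most twice as far from `1` as `w`. -/
lemma norm_div_norm_sub_one_le {w : ℂ} (hw : w ≠ 0) : ‖w / (‖w‖ : ℂ) - 1‖ ≤ 2 * ‖w - 1‖ := by
  have hn : (0:ℝ) < ‖w‖ := norm_pos_iff.2 hw
  have hnc : (‖w‖ : ℂ) ≠ 0 := by exact_mod_cast hn.ne'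
  have h1 : w / (‖w‖ : ℂ) - w = (w / (‖w‖ : ℂ)) * (((1 - ‖w‖ : ℝ)) : ℂ) := by
    push_cast
    field_simp
  have h2 : ‖w / (‖w‖ : ℂ) - w‖ ≤ ‖w - 1‖ := by
    rw [h1, norm_mul, norm_div, Complex.norm_real, norm_norm, div_self hn.ne', one_mul,
      Complex.norm_real, Real.norm_eq_abs, abs_sub_comm]
    have := abs_norm_sub_norm_le w 1
    simpa using this
  calc ‖w / (‖w‖ : ℂ) - 1‖ = ‖(w / (‖w‖ : ℂ) - w) + (w - 1)‖ := by ring_nf
    _ ≤ ‖w / (‖w‖ : ℂ) - w‖ + ‖w - 1‖ := norm_add_le _ _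
    _ ≤ 2 * ‖w - 1‖ := by linarith

/-- The moduli: `R = √((p - q)² + 4 H)` is close to `p + q` if `H` is close to `p q`. -/
lemma moduli_bound {p q H δ : ℝ} (hp : 0 ≤ p) (hq : 0 ≤ q) (hH : 0 ≤ H) (hδ : 0 ≤ δ)
    (h : |H - p * q| ≤ δ) : |√((p - q) ^ 2 + 4 * H) - (p + q)| ≤ 2 * √δ := by
  set R := √((p - q) ^ 2 + 4 * H) with hR
  have hR0 : 0 ≤ R := Real.sqrt_nonneg _
  have hR2 : R ^ 2 = (p - q) ^ 2 + 4 * H := Real.sq_sqrt (by positivity)
  have h1 : (R - (p + q)) * (R + (p + q)) = 4 * (H - p * q) := by nlinarith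
  have h2 : |R - (p + q)| * (R + (p + q)) ≤ 4 * δ := by
    have : |R - (p + q)| * (R + (p + q)) = |(R - (p + q)) * (R + (p + q))| := by
      rw [abs_mul, abs_of_nonneg (by positivity : 0 ≤ R + (p + q))]
    rw [this, h1, abs_mul]
    norm_num
    linarith
  have h3 : |R - (p + q)| ≤ R + (p + q) := by
    rw [abs_le]; constructor <;> linarith
  have h4 : |R - (p + q)| ^ 2 ≤ (2 * √δ) ^ 2 := by
    rw [mul_pow, Real.sq_sqrt hδ]
    nlinarith [abs_nonneg (R - (p + q))]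
  exact (sq_le_sq₀ (abs_nonneg _) (by positivity)).1 h4

/-- The approximation step for nowhere vanishing functions. -/
lemma approx_units {X : Type u} [TopologicalSpace X] [CompactSpace X] [T2Space X]
    (hX : CovDimLE X 1) {ε δ : ℝ} (hε : 0 < ε) (hδ : 0 < δ)
    (hδ2 : 256 * δ ≤ ε ^ 2) (a b h : C(X, ℂ)) (ha : ∀ x, a x ≠ 0) (hb : ∀ x, b x ≠ 0)
    (hh : ∀ x, h x ≠ 0) (hclose : ∀ x, ‖h x - a x * b x‖ ≤ δ) :
    ∃ f g : C(X, ℂ), (∀ x, f x * g x = h x) ∧ (∀ x, ‖f x - a x‖ ≤ ε) ∧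
      ∀ x, ‖g x - b x‖ ≤ ε := by
  classical
  have hsq : √δ ≤ ε / 4 := by
    rw [show ε / 4 = √((ε / 4) ^ 2) by rw [Real.sqrt_sq (by positivity)]]
    exact Real.sqrt_le_sqrt (by nlinarith)
  set τ : ℝ := ε / 4 with hτ
  have hτ0 : 0 < τ := by positivity
  set η : ℝ := 4 * δ / τ ^ 2 with hη
  have hη0 : 0 ≤ η := by positivity
  have hηeq : η = 64 * δ / ε ^ 2 := by
    rw [hη, hτ]; field_simp; ring
  have hη1 : η ≤ 1 / 4 := by
    rw [hηeq, div_le_iff₀ (by positivity)]; linarith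
  -- the quotient `k = h / (a b)` and its phase
  let k : C(X, ℂ) := ⟨fun x => h x / (a x * b x),
    h.continuous.div (a.continuous.mul b.continuous) fun x => mul_ne_zero (ha x) (hb x)⟩
  have hk : ∀ x, k x = h x / (a x * b x) := fun x => rfl
  have hk0 : ∀ x, k x ≠ 0 := fun x => div_ne_zero (hh x) (mul_ne_zero (ha x) (hb x))
  have hkn : ∀ x, ((‖k x‖ : ℝ) : ℂ) ≠ 0 := fun x => by
    simpa using hk0 x
  let κ : C(X, ℂ) := ⟨fun x => k x / (‖k x‖ : ℂ), k.continuous.div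
    (Complex.continuous_ofReal.comp (continuous_norm.comp k.continuous)) hkn⟩
  have hκ : ∀ x, κ x = k x / (‖k x‖ : ℂ) := fun x => rfl
  have hκ1 : ∀ x, ‖κ x‖ = 1 := fun x => by
    rw [hκ, norm_div, Complex.norm_real, norm_norm]
    exact div_self (norm_ne_zero_iff.2 (hk0 x))
  -- cutoff
  let s : C(X, ℝ) := ⟨fun x => max 0 (min 1 ((2 * ‖b x‖ - τ) / τ)), by
    refine continuous_const.max (continuous_const.min ?_)
    exact ((continuous_const.mul (continuous_norm.comp b.continuous)).sub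
      continuous_const).div_const _⟩
  have hs : ∀ x, s x = max 0 (min 1 ((2 * ‖b x‖ - τ) / τ)) := fun x => rfl
  have hs0 : ∀ x, 0 ≤ s x := fun x => le_max_left _ _
  have hs1 : ∀ x, s x ≤ 1 := fun x => max_le (by norm_num) (min_le_left _ _)
  have hsone : ∀ x, τ ≤ ‖b x‖ → s x = 1 := fun x hx => by
    rw [hs, min_eq_left, max_eq_right (by norm_num)]
    rw [le_div_iff₀ hτ0]; linarith
  have hszero : ∀ x, ‖b x‖ ≤ τ / 2 → s x = 0 := fun x hx => by
    rw [hs, max_eq_left]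
    refine (min_le_right _ _).trans ?_
    apply div_nonpos_of_nonpos_of_nonneg _ hτ0.le
    linarith
  let w : C(X, ℂ) := ⟨fun x => 1 + ((s x : ℝ) : ℂ) * (κ x - 1), by
    exact continuous_const.add ((Complex.continuous_ofReal.comp s.continuous).mul
      (κ.continuous.sub continuous_const))⟩
  have hw : ∀ x, w x = 1 + ((s x : ℝ) : ℂ) * (κ x - 1) := fun x => rfl
  have hwB : ∀ x, τ ≤ ‖b x‖ → w x = κ x := fun x hx => by
    rw [hw, hsone x hx]; push_cast; ring
  -- where `|a|` is large, `w` is close to one, in the weighted sense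
  have hwA' : ∀ x, ‖a x‖ * ‖w x - 1‖ ≤ 4 * δ / τ := by
    intro x
    by_cases hbx : ‖b x‖ ≤ τ / 2
    · rw [hw, hszero x hbx]
      simp only [Complex.ofReal_zero, zero_mul, add_zero, sub_self, norm_zero, mul_zero]
      positivity
    · push Not at hbx
      have hap : 0 < ‖a x‖ := norm_pos_iff.2 (ha x)
      have hbp : 0 < ‖b x‖ := norm_pos_iff.2 (hb x)
      have h1 : ‖a x‖ * ‖k x - 1‖ ≤ 2 * δ / τ := by
        have h2 : k x - 1 = (h x - a x * b x) / (a x * b x) := by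
          rw [hk, sub_div, div_self (mul_ne_zero (ha x) (hb x))]
        rw [h2, norm_div, norm_mul]
        have h3 : ‖a x‖ * (‖h x - a x * b x‖ / (‖a x‖ * ‖b x‖)) = ‖h x - a x * b x‖ / ‖b x‖ := by
          field_simp
        rw [h3, div_le_div_iff₀ hbp hτ0]
        have h4 := hclose x
        nlinarith [norm_nonneg (h x - a x * b x)]
      have h5 := norm_div_norm_sub_one_le (hk0 x)
      have h6 : ‖w x - 1‖ = s x * ‖κ x - 1‖ := by
        rw [hw, add_sub_cancel_left, norm_mul, Complex.norm_real, Real.norm_eq_abs,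
          abs_of_nonneg (hs0 x)]
      rw [h6]
      rw [← hκ] at h5
      have h7 : s x * ‖κ x - 1‖ ≤ 2 * ‖k x - 1‖ := by
        calc s x * ‖κ x - 1‖ ≤ 1 * ‖κ x - 1‖ :=
              mul_le_mul_of_nonneg_right (hs1 x) (norm_nonneg _)
          _ ≤ 2 * ‖k x - 1‖ := by linarith
      calc ‖a x‖ * (s x * ‖κ x - 1‖) ≤ ‖a x‖ * (2 * ‖k x - 1‖) :=
            mul_le_mul_of_nonneg_left h7 hap.le
        _ = 2 * (‖a x‖ * ‖k x - 1‖) := by ring
        _ ≤ 2 * (2 * δ / τ) := by linarith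
        _ = 4 * δ / τ := by ring
  have hwA : ∀ x, τ ≤ ‖a x‖ → ‖w x - 1‖ ≤ η := by
    intro x hx
    have h1 : τ * ‖w x - 1‖ ≤ 4 * δ / τ :=
      (mul_le_mul_of_nonneg_right hx (norm_nonneg _)).trans (hwA' x)
    have h2 : ‖w x - 1‖ ≤ 4 * δ / τ / τ := by
      rw [le_div_iff₀ hτ0]; linarith
    refine h2.trans_eq ?_
    rw [hη, div_div, pow_two]
  -- the closed set
  set A : Set X := {x | τ ≤ ‖a x‖} ∪ {x | τ ≤ ‖b x‖} with hA
  have hAc : IsClosed A :=
    (isClosed_le continuous_const (continuous_norm.comp a.continuous)).union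
      (isClosed_le continuous_const (continuous_norm.comp b.continuous))
  have hw0 : ∀ x ∈ A, w x ≠ 0 := by
    rintro x (hx | hx)
    · intro h0
      have := hwA x hx
      rw [h0] at this
      simp at this
      linarith
    · intro h0
      have h1 := hκ1 x
      rw [← hwB x hx, h0] at h1
      simp at h1
  have hucont : ContinuousOn (fun x => w x / (‖w x‖ : ℂ)) A := by
    refine ContinuousOn.div w.continuous.continuousOn
      (Complex.continuous_ofReal.comp (continuous_norm.comp w.continuous)).continuousOn ?_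
    intro x hx
    simpa using hw0 x hx
  have hunorm : ∀ x ∈ A, ‖w x / (‖w x‖ : ℂ)‖ = 1 := by
    intro x hx
    rw [norm_div, Complex.norm_real, norm_norm]
    exact div_self (norm_ne_zero_iff.2 (hw0 x hx))
  obtain ⟨v, hv1, hvA⟩ := exists_circle_extension hX hAc _ hucont hunorm
  have hvAclose : ∀ x, τ ≤ ‖a x‖ → ‖a x‖ * ‖v x - 1‖ ≤ 8 * δ / τ := by
    intro x hx
    rw [hvA x (Or.inl hx)]
    have h1 := norm_div_norm_sub_one_le (hw0 x (Or.inl hx))
    have h2 := mul_le_mul_of_nonneg_left h1 (norm_nonneg (a x))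
    refine h2.trans ?_
    have h3 : ‖a x‖ * (2 * ‖w x - 1‖) = 2 * (‖a x‖ * ‖w x - 1‖) := by ring
    have h4 : 8 * δ / τ = 2 * (4 * δ / τ) := by ring
    rw [h3, h4]
    linarith [hwA' x]
  have hvB : ∀ x, τ ≤ ‖b x‖ → v x = κ x := by
    intro x hx
    rw [hvA x (Or.inr hx), hwB x hx, hκ1]
    simp
  -- the moduli
  let R : C(X, ℝ) := ⟨fun x => √((‖a x‖ - ‖b x‖) ^ 2 + 4 * ‖h x‖), by
    refine Real.continuous_sqrt.comp ?_
    exact (((continuous_norm.comp a.continuous).sub (continuous_norm.comp b.continuous)).pow 2).add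
      (continuous_const.mul (continuous_norm.comp h.continuous))⟩
  have hR : ∀ x, R x = √((‖a x‖ - ‖b x‖) ^ 2 + 4 * ‖h x‖) := fun x => rfl
  have hR2 : ∀ x, R x ^ 2 = (‖a x‖ - ‖b x‖) ^ 2 + 4 * ‖h x‖ := fun x => by
    rw [hR, Real.sq_sqrt (by positivity)]
  have hR0 : ∀ x, 0 ≤ R x := fun x => by rw [hR]; exact Real.sqrt_nonneg _
  have hRb : ∀ x, |R x - (‖a x‖ + ‖b x‖)| ≤ 2 * √δ := by
    intro x
    rw [hR]
    refine moduli_bound (norm_nonneg _) (norm_nonneg _) (norm_nonneg _) hδ.le ?_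
    rw [← norm_mul]
    exact (abs_norm_sub_norm_le _ _).trans (hclose x)
  have hFpos : ∀ x, 0 < ((‖a x‖ - ‖b x‖) + R x) / 2 := by
    intro x
    have h1 : 0 < ‖h x‖ := norm_pos_iff.2 (hh x)
    have h2 := hR2 x
    have h3 : |‖a x‖ - ‖b x‖| < R x := by
      rw [← abs_of_nonneg (hR0 x)]
      exact sq_lt_sq.1 (by linarith)
    have := (abs_lt.1 h3).1
    linarith
  let F : C(X, ℝ) := ⟨fun x => ((‖a x‖ - ‖b x‖) + R x) / 2, by
    exact ((((continuous_norm.comp a.continuous).sub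
      (continuous_norm.comp b.continuous))).add R.continuous).div_const _⟩
  have hF : ∀ x, F x = ((‖a x‖ - ‖b x‖) + R x) / 2 := fun x => rfl
  have hF0 : ∀ x, 0 < F x := hFpos
  have hFa : ∀ x, |F x - ‖a x‖| ≤ √δ := by
    intro x
    have : F x - ‖a x‖ = (R x - (‖a x‖ + ‖b x‖)) / 2 := by rw [hF]; ring
    rw [this, abs_div, abs_two]
    have := hRb x
    linarith
  have hFG : ∀ x, ‖h x‖ / F x = F x - (‖a x‖ - ‖b x‖) := by
    intro x
    rw [div_eq_iff (hF0 x).ne', hF]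
    nlinarith [hR2 x]
  have hGb : ∀ x, |‖h x‖ / F x - ‖b x‖| ≤ √δ := by
    intro x
    rw [hFG]
    have : F x - (‖a x‖ - ‖b x‖) - ‖b x‖ = F x - ‖a x‖ := by ring
    rw [this]; exact hFa x
  have han : ∀ x, ((‖a x‖ : ℝ) : ℂ) ≠ 0 := fun x => by simpa using ha x
  have hbn : ∀ x, ((‖b x‖ : ℝ) : ℂ) ≠ 0 := fun x => by simpa using hb x
  have hFn : ∀ x, ((F x : ℝ) : ℂ) ≠ 0 := fun x => by exact_mod_cast (hF0 x).ne'
  have hv0 : ∀ x, v x ≠ 0 := fun x h0 => by
    have := hv1 x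
    rw [h0] at this
    simp at this
  let f : C(X, ℂ) := ⟨fun x => ((F x : ℝ) : ℂ) * (a x / (‖a x‖ : ℂ)) * v x, by
    refine (Continuous.mul (Complex.continuous_ofReal.comp F.continuous) ?_).mul v.continuous
    exact a.continuous.div (Complex.continuous_ofReal.comp (continuous_norm.comp a.continuous)) han⟩
  have hf : ∀ x, f x = ((F x : ℝ) : ℂ) * (a x / (‖a x‖ : ℂ)) * v x := fun x => rfl
  have hf0 : ∀ x, f x ≠ 0 := fun x =>
    mul_ne_zero (mul_ne_zero (hFn x) (div_ne_zero (ha x) (han x))) (hv0 x)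
  have hfn : ∀ x, ‖f x‖ = F x := by
    intro x
    rw [hf, norm_mul, norm_mul, norm_div, Complex.norm_real, Complex.norm_real, norm_norm,
      div_self (norm_ne_zero_iff.2 (ha x)), hv1, mul_one, mul_one, Real.norm_eq_abs,
      abs_of_pos (hF0 x)]
  refine ⟨f, ⟨fun x => h x / f x, h.continuous.div f.continuous hf0⟩, ?_, ?_, ?_⟩
  · intro x
    simp only [ContinuousMap.coe_mk]
    exact mul_div_cancel₀ _ (hf0 x)
  · intro x
    by_cases hx : τ ≤ ‖a x‖
    · have h1 : f x - a x = (a x / (‖a x‖ : ℂ)) *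
          ((((F x - ‖a x‖ : ℝ)) : ℂ) * v x + ((‖a x‖ : ℝ) : ℂ) * (v x - 1)) := by
        rw [hf]; push_cast
        field_simp [han x]
        ring
      rw [h1, norm_mul, norm_div, Complex.norm_real, norm_norm,
        div_self (norm_ne_zero_iff.2 (ha x)), one_mul]
      refine (norm_add_le _ _).trans ?_
      rw [norm_mul, norm_mul, hv1, mul_one, Complex.norm_real, Complex.norm_real, norm_norm,
        Real.norm_eq_abs]
      have h2 := hFa x
      have h3 := hvAclose x hx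
      have h4 : 8 * δ / τ ≤ ε / 8 := by
        rw [hτ, div_le_iff₀ (by positivity)]
        nlinarith
      linarith
    · push Not at hx
      refine (norm_sub_le _ _).trans ?_
      rw [hfn]
      have h2 := (abs_le.1 (hFa x)).2
      linarith
  · intro x
    simp only [ContinuousMap.coe_mk]
    by_cases hx : τ ≤ ‖b x‖
    · have hvk := hvB x hx
      have hb1 : (0:ℝ) < ‖b x‖ := norm_pos_iff.2 (hb x)
      have h1 : h x / f x = (((‖h x‖ / F x : ℝ)) : ℂ) * (b x / (‖b x‖ : ℂ)) := by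
        rw [div_eq_iff (hf0 x), hf, hvk, hκ]
        have hkx : k x = h x / (a x * b x) := hk x
        have hknorm : ‖k x‖ = ‖h x‖ / (‖a x‖ * ‖b x‖) := by rw [hkx, norm_div, norm_mul]
        rw [hknorm, hkx]
        push_cast
        have e1 := han x
        have e2 := hbn x
        have e3 := hFn x
        have e4 := ha x
        have e5 := hb x
        have e6 : ((‖h x‖ : ℝ) : ℂ) ≠ 0 := by simpa using hh x
        field_simp
      have h2 : h x / f x - b x = (b x / (‖b x‖ : ℂ)) * (((‖h x‖ / F x - ‖b x‖ : ℝ)) : ℂ) := by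
        rw [h1]; push_cast
        field_simp [hbn x]
      rw [h2, norm_mul, norm_div, Complex.norm_real, norm_norm, div_self hb1.ne', one_mul,
        Complex.norm_real, Real.norm_eq_abs]
      have := hGb x
      linarith
    · push Not at hx
      refine (norm_sub_le _ _).trans ?_
      rw [norm_div, hfn]
      have h2 := (abs_le.1 (hGb x)).2
      linarith

/-- The approximate factorisation for arbitrary functions. -/
lemma approx_general {X : Type u} [TopologicalSpace X] [CompactSpace X] [T2Space X]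
    (hX : CovDimLE X 1) {ε : ℝ} (hε : 0 < ε) (a b h : C(X, ℂ)) (hh : ‖h - a * b‖ ≤ ε ^ 2 / 2048)
    {δ' : ℝ} (hδ' : 0 < δ') :
    ∃ f g : C(X, ℂ), ‖f - a‖ ≤ ε ∧ ‖g - b‖ ≤ ε ∧ ‖h - f * g‖ ≤ δ' := by
  set δ : ℝ := ε ^ 2 / 1024 with hδ
  have hδ0 : 0 < δ := by positivity
  set N : ℝ := 3 + ‖a‖ + ‖b‖ with hN
  have hN0 : 0 < N := by positivity
  set ρ : ℝ := min (min (ε / 2) δ') (min 1 (δ / (2 * N))) with hρ
  have hρ0 : 0 < ρ := by
    refine lt_min (lt_min (by positivity) hδ') (lt_min one_pos (by positivity))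
  have hρ1 : ρ ≤ ε / 2 := (min_le_left _ _).trans (min_le_left _ _)
  have hρ2 : ρ ≤ δ' := (min_le_left _ _).trans (min_le_right _ _)
  have hρ3 : ρ ≤ 1 := (min_le_right _ _).trans (min_le_left _ _)
  have hρ4 : ρ * (2 * N) ≤ δ := by
    rw [← le_div_iff₀ (by positivity)]
    exact (min_le_right _ _).trans (min_le_right _ _)
  obtain ⟨a', ha'0, ha'⟩ := exists_unit_near hX a hρ0
  obtain ⟨b', hb'0, hb'⟩ := exists_unit_near hX b hρ0
  obtain ⟨h', hh'0, hh'⟩ := exists_unit_near hX h hρ0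
  have hax : ∀ x, ‖a x‖ ≤ ‖a‖ := fun x => a.norm_coe_le_norm x
  have hbx : ∀ x, ‖b x‖ ≤ ‖b‖ := fun x => b.norm_coe_le_norm x
  have ha'x : ∀ x, ‖a' x‖ ≤ ‖a‖ + 1 := fun x => by
    have h1 : a' x = (a' x - a x) + a x := by ring
    rw [h1]
    refine (norm_add_le _ _).trans ?_
    linarith [ha' x, hax x]
  have hclose : ∀ x, ‖h' x - a' x * b' x‖ ≤ δ := by
    intro x
    have h1 : h' x - a' x * b' x = (h' x - h x) + (h x - a x * b x) + (-(a' x - a x) * b x) +
        (-(a' x) * (b' x - b x)) := by ring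
    rw [h1]
    have h2 : ‖h x - a x * b x‖ ≤ δ / 2 := by
      have := (h - a * b).norm_coe_le_norm x
      simp only [ContinuousMap.coe_sub, ContinuousMap.coe_mul, Pi.sub_apply, Pi.mul_apply] at this
      refine (this.trans hh).trans_eq ?_
      rw [hδ]; ring
    have h3 : ‖-(a' x - a x) * b x‖ ≤ ρ * ‖b‖ := by
      rw [norm_mul, norm_neg]
      exact mul_le_mul (ha' x).le (hbx x) (norm_nonneg _) hρ0.le
    have h4 : ‖-(a' x) * (b' x - b x)‖ ≤ (‖a‖ + 1) * ρ := by
      rw [norm_mul, norm_neg]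
      exact mul_le_mul (ha'x x) (hb' x).le (norm_nonneg _) (by positivity)
    have h5 := hh' x
    have h6 := norm_add₃_le (a := h' x - h x) (b := h x - a x * b x) (c := -(a' x - a x) * b x)
    have h7 := norm_add_le ((h' x - h x) + (h x - a x * b x) + (-(a' x - a x) * b x))
      (-(a' x) * (b' x - b x))
    have h8 : ρ + ρ * ‖b‖ + (‖a‖ + 1) * ρ ≤ δ / 2 := by
      have : ρ + ρ * ‖b‖ + (‖a‖ + 1) * ρ = ρ * (N - 1) := by rw [hN]; ring
      rw [this]
      nlinarith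
    linarith
  obtain ⟨f, g, hfg, hf, hg⟩ := approx_units hX (by positivity : 0 < ε / 2) hδ0
    (by rw [hδ]; apply le_of_eq; ring) a' b' h' ha'0 hb'0 hh'0 hclose
  refine ⟨f, g, ?_, ?_, ?_⟩
  · rw [ContinuousMap.norm_le _ hε.le]
    intro x
    simp only [ContinuousMap.coe_sub, Pi.sub_apply]
    have h1 : f x - a x = (f x - a' x) + (a' x - a x) := by ring
    rw [h1]
    refine (norm_add_le _ _).trans ?_
    linarith [hf x, ha' x]
  · rw [ContinuousMap.norm_le _ hε.le]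
    intro x
    simp only [ContinuousMap.coe_sub, Pi.sub_apply]
    have h1 : g x - b x = (g x - b' x) + (b' x - b x) := by ring
    rw [h1]
    refine (norm_add_le _ _).trans ?_
    linarith [hg x, hb' x]
  · rw [ContinuousMap.norm_le _ hδ'.le]
    intro x
    simp only [ContinuousMap.coe_sub, ContinuousMap.coe_mul, Pi.sub_apply, Pi.mul_apply]
    rw [hfg x, norm_sub_rev]
    linarith [hh' x]

/-- The exact factorisation, by iteration. -/
lemma exact_factor {X : Type u} [TopologicalSpace X] [CompactSpace X] [T2Space X]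
    (hX : CovDimLE X 1) {ε : ℝ} (hε : 0 < ε) (a b h : C(X, ℂ))
    (hh : ‖h - a * b‖ ≤ ε ^ 2 / 32768) :
    ∃ f g : C(X, ℂ), ‖f - a‖ < ε ∧ ‖g - b‖ < ε ∧ f * g = h := by
  classical
  set E : ℕ → ℝ := fun n => ε / 2 / 2 / 2 ^ n with hE
  have hE0 : ∀ n, 0 < E n := fun n => by simp only [hE]; positivity
  set d : ℕ → ℝ := fun n => E n ^ 2 / 2048 with hd
  have hd0 : ∀ n, 0 < d n := fun n => by
    have := hE0 n
    simp only [hd]; positivity
  have hd00 : d 0 = ε ^ 2 / 32768 := by simp only [hd, hE, pow_zero]; ring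
  -- invariants
  let Inv : ℕ → C(X, ℂ) × C(X, ℂ) → Prop := fun n p => ‖h - p.1 * p.2‖ ≤ d n
  have hstep : ∀ n, ∀ p, Inv n p → ∃ p', Inv (n + 1) p' ∧ ‖p'.1 - p.1‖ ≤ E n ∧
      ‖p'.2 - p.2‖ ≤ E n := by
    rintro n ⟨f, g⟩ h3
    obtain ⟨f', g', hf', hg', hfg'⟩ := approx_general hX (hE0 n) f g h h3 (hd0 (n + 1))
    exact ⟨(f', g'), hfg', hf', hg'⟩
  choose nxt hnxt1 hnxt2 hnxt3 using hstep
  have hInv0 : Inv 0 (a, b) := by
    change ‖h - a * b‖ ≤ d 0
    rw [hd00]; exact hh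
  let seq : (n : ℕ) → {p : C(X, ℂ) × C(X, ℂ) // Inv n p} := fun n =>
    Nat.rec ⟨(a, b), hInv0⟩ (fun n p => ⟨nxt n p.1 p.2, hnxt1 n p.1 p.2⟩) n
  have hseq1 : ∀ n, ‖(seq (n + 1)).1.1 - (seq n).1.1‖ ≤ E n := fun n => hnxt2 n _ (seq n).2
  have hseq2 : ∀ n, ‖(seq (n + 1)).1.2 - (seq n).1.2‖ ≤ E n := fun n => hnxt3 n _ (seq n).2
  have hdist1 : ∀ n, dist ((seq n).1.1) ((seq (n + 1)).1.1) ≤ ε / 2 / 2 / 2 ^ n := fun n => by
    rw [dist_comm, dist_eq_norm]; exact hseq1 n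
  have hdist2 : ∀ n, dist ((seq n).1.2) ((seq (n + 1)).1.2) ≤ ε / 2 / 2 / 2 ^ n := fun n => by
    rw [dist_comm, dist_eq_norm]; exact hseq2 n
  obtain ⟨f, hf⟩ := cauchySeq_tendsto_of_complete (cauchySeq_of_le_geometric_two hdist1)
  obtain ⟨g, hg⟩ := cauchySeq_tendsto_of_complete (cauchySeq_of_le_geometric_two hdist2)
  have hfa := dist_le_of_le_geometric_two_of_tendsto₀ hdist1 hf
  have hgb := dist_le_of_le_geometric_two_of_tendsto₀ hdist2 hg
  refine ⟨f, g, ?_, ?_, ?_⟩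
  · have : dist a f ≤ ε / 2 := hfa
    rw [dist_comm, dist_eq_norm] at this
    linarith
  · have : dist b g ≤ ε / 2 := hgb
    rw [dist_comm, dist_eq_norm] at this
    linarith
  · have h1 : Tendsto (fun n => (seq n).1.1 * (seq n).1.2) atTop (𝓝 (f * g)) := hf.mul hg
    have h2 : Tendsto (fun n => (seq n).1.1 * (seq n).1.2) atTop (𝓝 h) := by
      rw [tendsto_iff_norm_sub_tendsto_zero]
      have h3 : Tendsto d atTop (𝓝 0) := by
        have h4 : Tendsto (fun n : ℕ => ε / 2 / 2 * (1 / 2 : ℝ) ^ n) atTop (𝓝 (ε / 2 / 2 * 0)) :=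
          (tendsto_pow_atTop_nhds_zero_of_lt_one (by norm_num) (by norm_num)).const_mul _
        have h5 : Tendsto E atTop (𝓝 0) := by
          rw [mul_zero] at h4
          refine h4.congr fun n => ?_
          simp only [hE, one_div, inv_pow]
          rw [div_eq_mul_inv (ε / 2 / 2) (2 ^ n)]
        have h6 := (h5.pow 2).div_const 2048
        simpa [hd] using h6
      refine squeeze_zero (fun _ => norm_nonneg _) (fun n => ?_) h3
      rw [norm_sub_rev]
      exact (seq n).2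
    exact tendsto_nhds_unique h1 h2

end Pool.Agent.Zk73.OM
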